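import Mathlib
import Pool.Agent.Wil.AllX

set_option autoImplicit false

/-! Willems' inequality for all symmetric and all alternating groups in characteristics 3, 5, 7. -/

namespace Pool.Agent.Results.MP_6335a4_al.AllDegrees

/-- The dimension of `k[G] / J(k[G])` over `k`. -/
noncomputable def ssDim (k G : Type) [Field k] [Group G] : ℕ :=
  Module.finrank k (MonoidAlgebra k G ⧸ (Ring.jacobson (MonoidAlgebra k G)).restrictScalars k)

/-- The `p'`-part of a natural number. -/
def pPrimePart (p n : ℕ) : ℕ := n / p ^ n.factorization p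

theorem result (p : ℕ) [Fact p.Prime] (hp : p = 3 ∨ p = 5 ∨ p = 7) (n : ℕ) (k : Type) [Field k]
    [CharP k p] :
    pPrimePart p (Nat.card (Equiv.Perm (Fin n))) ≤ ssDim k (Equiv.Perm (Fin n)) ∧
      pPrimePart p (Nat.card (alternatingGroup (Fin n))) ≤ ssDim k (alternatingGroup (Fin n)) :=
  Pool.Agent.Wil.full p hp n k

end Pool.Agent.Results.MP_6335a4_al.AllDegrees
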