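import Pool.Agent.Wnx.Fac

set_option autoImplicit false

/-! Willems' inequality and large alternating composition factors. -/

namespace Pool.Agent.Results.MP_6335a4_al.NormalAlternating

/-- The dimension of `k[G] / J(k[G])` over `k`. -/
noncomputable def ssDim (k G : Type) [Field k] [Group G] : ℕ :=
  Module.finrank k (MonoidAlgebra k G ⧸ (Ring.jacobson (MonoidAlgebra k G)).restrictScalars k)

/-- The `p'`-part of a natural number. -/
def pPrimePart (p n : ℕ) : ℕ := n / p ^ n.factorization p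

/-- `1 = H 0 ⊲ H 1 ⊲ ... ⊲ H r = N`: a subnormal series of the subgroup `N`. -/
def IsSeries {G : Type} [Group G] (N : Subgroup G) (r : ℕ) (H : ℕ → Subgroup G) : Prop :=
  H 0 = ⊥ ∧ H r = N ∧ ∀ i < r, H i ≤ H (i + 1) ∧ ((H i).subgroupOf (H (i + 1))).Normal

/-- `B / A` is isomorphic to the alternating group of degree `n`: there is a homomorphism from `B` onto it
with kernel `A`. -/
def AltFactor {G : Type} [Group G] (A B : Subgroup G) (n : ℕ) : Prop :=
  ∃ f : B →* alternatingGroup (Fin n), Function.Surjective f ∧ f.ker = A.subgroupOf B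

theorem result (p : ℕ) [Fact p.Prime] :
    ∃ n₀ : ℕ, ∀ (k : Type) [Field k] [CharP k p] (G : Type) [Group G] [Finite G]
      (N : Subgroup G) [N.Normal] (r : ℕ) (H : ℕ → Subgroup G) (I : Finset ℕ) (d : ℕ → ℕ),
      IsSeries N r H → (∀ i ∈ I, i < r ∧ n₀ ≤ d i ∧ AltFactor (H i) (H (i + 1)) (d i)) →
      (∏ i ∈ I, ((d i).factorial : ℝ) * Real.exp (-(d i : ℝ) / (p : ℝ) ^ 3)) *
          (ssDim k (G ⧸ N) : ℝ) ≤ (ssDim k G : ℝ) ∧
      ∀ R : ℕ, Nat.card N = R * ∏ i ∈ I, Nat.card (alternatingGroup (Fin (d i))) →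
        pPrimePart p R ^ p ≤ p ^ (∑ i ∈ I, d i) →
        pPrimePart p (Nat.card N) * ssDim k (G ⧸ N) ≤ ssDim k G := by
  obtain ⟨n₀, h⟩ := Wnx.series_willems p
  refine ⟨n₀, fun k _ _ G _ _ N _ r H I d hS hI => ?_⟩
  exact h k G N r H I d ⟨hS.1, hS.2.1, hS.2.2, fun i hi => ⟨(hI i hi).1, (hI i hi).2.2⟩⟩
    fun i hi => (hI i hi).2.1

end Pool.Agent.Results.MP_6335a4_al.NormalAlternating
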