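import Mathlib
import Pool.Agent.Wrc.Sym

set_option autoImplicit false

/-! Willems' inequality for wreath products with general permutation groups. -/

namespace Pool.Agent.Results.MP_6335a4_al.PermutationWreath

/-- The dimension of `k[G] / J(k[G])` over `k`. -/
noncomputable def ssDim (k G : Type) [Field k] [Group G] : ℕ :=
  Module.finrank k (MonoidAlgebra k G ⧸ (Ring.jacobson (MonoidAlgebra k G)).restrictScalars k)

/-- The `p'`-part of a natural number. -/
def pPrimePart (p n : ℕ) : ℕ := n / p ^ n.factorization p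

/-- Willems' inequality for the group `G`, the prime `p` and the field `k` (of characteristic `p`). -/
def Willems (p : ℕ) (k G : Type) [Field k] [Group G] : Prop := pPrimePart p (Nat.card G) ≤ ssDim k G

/-- The action of `P` on the functions `Ω → H`: `(q h) ω = h (q⁻¹ ω)`. -/
def act (H P Ω : Type) [Group H] [Group P] [MulAction P Ω] : P →* MulAut (Ω → H) where
  toFun q :=
    { toFun := fun h ω => h (q⁻¹ • ω)
      invFun := fun h ω => h (q • ω)
      left_inv := fun h => by funext ω; simp
      right_inv := fun h => by funext ω; simp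
      map_mul' := fun _ _ => rfl }
  map_one' := by ext h ω; simp
  map_mul' q r := by
    ext h ω
    simp [mul_smul]

/-- The wreath product `H ≀ P`, `P` acting on `Ω`. -/
abbrev Wr (H P Ω : Type) [Group H] [Group P] [MulAction P Ω] : Type := (Ω → H) ⋊[act H P Ω] P

/-- The stabiliser in `P` of the colouring `f` of `Ω`. -/
def stab (P : Type) {Ω : Type} [Group P] [MulAction P Ω] (f : Ω → ℕ) : Subgroup P where
  carrier := {q | ∀ ω, f (q • ω) = f ω}
  mul_mem' := fun {q r} hq hr ω => by rw [mul_smul, hq, hr]
  one_mem' := fun ω => by rw [one_smul]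
  inv_mem' := fun {q} hq ω => by rw [← hq (q⁻¹ • ω), smul_inv_smul]

/-- Let `k` be a field of characteristic `p`, `H` and `P` finite groups, `P` acting on the finite set `Ω`. If Willems'
inequality holds for the stabilisers in `P` of all colourings of `Ω` then it passes from `H` to `H ≀ P`, and
`|P|_{p'} S_p(H) ^ |Ω| ≤ S_p(H ≀ P)`. So no counterexample of least order is a wreath product `H ≀ P` (`H`, `P` not trivial,
`Ω` not empty). Scope: Willems' inequality holds for every finite group `S` which has a subgroup of order `|S|_{p'}`. -/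
theorem result (p : ℕ) [Fact p.Prime] (k : Type) [Field k] [CharP k p] :
    (∀ (H P Ω : Type) [Group H] [Finite H] [Group P] [Finite P] [MulAction P Ω] [Finite Ω],
      ((∀ f : Ω → ℕ, Willems p k (stab P f)) →
        pPrimePart p (Nat.card P) * ssDim k H ^ Nat.card Ω ≤ ssDim k (Wr H P Ω) ∧
        (Willems p k H → Willems p k (Wr H P Ω))) ∧
      (Nontrivial H → Nontrivial P → Nonempty Ω →
        (∀ (G : Type) [Group G] [Finite G], Nat.card G < Nat.card (Wr H P Ω) → Willems p k G) →
        Willems p k (Wr H P Ω))) ∧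
    ∀ (S : Type) [Group S] [Finite S] (Q : Subgroup S), Nat.card Q = pPrimePart p (Nat.card S) → Willems p k S := by
  refine ⟨?_, ?_⟩
  · intro H P Ω _ _ _ _ _ _
    have h : (∀ f : Ω → ℕ, Willems p k (stab P f)) →
        pPrimePart p (Nat.card P) * ssDim k H ^ Nat.card Ω ≤ ssDim k (Wr H P Ω) :=
      fun hP => Pool.Agent.Wrc.wr_field p k H P Ω hP
    have h' : (∀ f : Ω → ℕ, Willems p k (stab P f)) → Willems p k H → Willems p k (Wr H P Ω) :=
      fun hP => Pool.Agent.Wrc.wr_will p k H P Ω (h hP)
    refine ⟨fun hP => ⟨h hP, h' hP⟩, ?_⟩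
    intro hH hPn hΩ hG
    have hc : Nat.card (Wr H P Ω) = Nat.card P * Nat.card H ^ Nat.card Ω := Pool.Agent.Wrc.card_wr H P Ω
    have h1 : 1 < Nat.card H := Finite.one_lt_card
    have h2 : 1 < Nat.card P := Finite.one_lt_card
    have h3 : Nat.card Ω ≠ 0 := Nat.card_pos.ne'
    have h4 : Nat.card H ≤ Nat.card H ^ Nat.card Ω := Nat.le_self_pow h3 _
    refine h' (fun f => hG _ ?_) (hG _ ?_)
    · have h5 : Nat.card (stab P f) ≤ Nat.card P := Subgroup.card_le_card_group _
      rw [hc]
      nlinarith
    · rw [hc]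
      nlinarith
  · intro S _ _ Q hQ
    have hp : p.Prime := Fact.out
    have h1 : ¬ p ∣ Nat.card Q := by
      rw [hQ]
      exact Nat.not_dvd_ordCompl hp Nat.card_pos.ne'
    have h2 := Pool.Agent.Wil.ssDim_ge_card (p := p) (k := k) Q h1
    rw [hQ] at h2
    exact h2

end Pool.Agent.Results.MP_6335a4_al.PermutationWreath
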